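import Mathlib
import Pool.Agent.Y241.DS.Pow

/-!
# A Tychonoff space which is not d-separable and all of whose other countable powers are D-separable

The space is the tree `Node` of the library: its points are the closed subsets, with a last element,
of a well-ordered set, with increasing labels (countable partial 0-1 functions), such that the labels
below a limit point of countable cofinality are below a guessed label; the cones and their
complements generate the topology. It is not d-separable.

Here the coordinates of a countable power are compared with one fixed coordinate. Given finitely many
coordinates, one first goes above members of a maximal family of pairwise incompatible pairs with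
incompatible labels, for each of these coordinates together with the fixed one; then each of the
alternating sequences stops, and by adding two points to the fixed coordinate and one point, in
between, to each of the other ones, all the alternating sequences are completed simultaneously. This
gives a dense union of countably many antichains (indexed by finite sets of pairs of a coordinate
and a natural number) in the finite subpowers, whence the D-separability of the power.
-/

set_option autoImplicit false

open Set Topology

namespace Pool.Agent.Results.MP_4cef1b_gt.AllCountablePowers

open Pool.Agent.H764R3.Tree Pool.Agent.Y241.DS

/-- There is (in ZFC) a zero-dimensional Tychonoff space `X` which is not d-separable (no dense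
subset of it is a countable union of discrete subspaces) such that `X × X` and all the powers
`ι → X` with a countable, finite or infinite, index set `ι` having at least two elements are
D-separable (from every sequence of dense subsets one can choose discrete subsets with dense
union). -/
theorem result : ∃ (X : Type) (_ : TopologicalSpace X), T35Space X ∧
    TopologicalSpace.IsTopologicalBasis {U : Set X | IsClopen U} ∧
    ¬ (∃ F : ℕ → Set X, (∀ n, DiscreteTopology (F n)) ∧ Dense (⋃ n, F n)) ∧
    (∀ D : ℕ → Set (X × X), (∀ n, Dense (D n)) →
      ∃ F : ℕ → Set (X × X), (∀ n, F n ⊆ D n ∧ DiscreteTopology (F n)) ∧ Dense (⋃ n, F n)) ∧
    ∀ ι : Type, Countable ι → Nontrivial ι → ∀ D : ℕ → Set (ι → X), (∀ n, Dense (D n)) →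
      ∃ F : ℕ → Set (ι → X), (∀ n, F n ⊆ D n ∧ DiscreteTopology (F n)) ∧ Dense (⋃ n, F n) :=
  ⟨Node, inferInstance, inferInstance, isTopologicalBasis_isClopen, not_dSeparableWeak,
    dSeparable_square, fun _ _ _ => dSeparable_pow⟩

end Pool.Agent.Results.MP_4cef1b_gt.AllCountablePowers
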